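import Mathlib

set_option autoImplicit false

/-!
# MP_8fbeef_co: dominating paths in local-3-edge-critical graphs

Every connected 3-(γ,2)-critical graph contains a dominating path.

Proof. Since `γ(G) = 3`, `G` is connected and not complete, so there are nonadjacent vertices `u`,
`v` with a common neighbour `w`. After possibly exchanging `u` and `v` there is a vertex `x`
such that `{u, x}` dominates every vertex except `v`. The vertices `x`, `u` and `w` (or `v`)
lie on a path: according to whether `x ∼ u`, `x` and `u` have a common neighbour, some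
neighbour of `x` is adjacent to some neighbour of `u`, or none of these (then `v` is adjacent to
a neighbour of `x`).
-/

namespace Pool.Agent.Results.MP_8fbeef_co.DominatingPath

open SimpleGraph

/-- `D` is a dominating set: every vertex outside `D` has a neighbour in `D`. -/
def Dominating {V : Type} (G : SimpleGraph V) (D : Finset V) : Prop :=
  ∀ v, v ∉ D → ∃ u ∈ D, G.Adj v u

/-- The domination number. -/
noncomputable def gamma {V : Type} (G : SimpleGraph V) : ℕ :=
  sInf {k | ∃ D : Finset V, Dominating G D ∧ D.card = k}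

/-- `k`-`(γ,r)`-critical graphs: `γ(G) = k`, and adding the edge `uv` lowers the domination number
for every pair of distinct nonadjacent vertices at distance at most `r`. -/
def LocallyCritical {V : Type} (k r : ℕ) (G : SimpleGraph V) : Prop :=
  gamma G = k ∧ ∀ u v : V, u ≠ v → ¬ G.Adj u v → G.Reachable u v → G.dist u v ≤ r →
    gamma (G ⊔ SimpleGraph.edge u v) < k

variable {V : Type} [Fintype V] {G : SimpleGraph V}

lemma gamma_le {G : SimpleGraph V} {D : Finset V} (h : Dominating G D) : gamma G ≤ D.card :=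
  Nat.sInf_le ⟨D, h, rfl⟩

lemma exists_gamma (G : SimpleGraph V) : ∃ D : Finset V, Dominating G D ∧ D.card = gamma G :=
  Nat.sInf_mem (s := {k | ∃ D : Finset V, Dominating G D ∧ D.card = k})
    ⟨_, Finset.univ, fun v hv => absurd (Finset.mem_univ v) hv, rfl⟩

/-- The core step: if `{u, x}` dominates everything but `v`, and `w` is a common neighbour of `u`
and `v`, then there is a dominating path. -/
lemma core (hc : G.Connected) {u v w x : V} (hwu : G.Adj u w) (hwv : G.Adj v w)
    (hxv : ¬ G.Adj x v) (hxv' : x ≠ v) (huv : ¬ G.Adj u v) (huv' : u ≠ v) (hxu : x ≠ u)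
    (hdom : ∀ y, y ≠ v → (y = u ∨ G.Adj y u) ∨ (y = x ∨ G.Adj y x)) :
    ∃ (a b : V) (p : G.Walk a b), p.IsPath ∧ ∀ y, y ∈ p.support ∨ ∃ z ∈ p.support, G.Adj y z := by
  classical
  have hwx : w ≠ x := by rintro rfl; exact hxv hwv.symm
  have huw : u ≠ w := G.ne_of_adj hwu
  have hvw : v ≠ w := G.ne_of_adj hwv
  -- a path containing x, u and (w or v) is dominating
  have key : ∀ (a b : V) (p : G.Walk a b), p.IsPath → x ∈ p.support → u ∈ p.support →
      w ∈ p.support → ∃ (a b : V) (p : G.Walk a b), p.IsPath ∧
        ∀ y, y ∈ p.support ∨ ∃ z ∈ p.support, G.Adj y z := by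
    intro a b p hp hx hu hw
    refine ⟨a, b, p, hp, fun y => ?_⟩
    by_cases hy : y = v
    · subst hy; exact Or.inr ⟨w, hw, hwv⟩
    · rcases hdom y hy with (rfl | h) | (rfl | h)
      · exact Or.inl hu
      · exact Or.inr ⟨u, hu, h⟩
      · exact Or.inl hx
      · exact Or.inr ⟨x, hx, h⟩
  by_cases h1 : G.Adj x u
  · -- x - u - w
    refine key x w (Walk.cons h1 (Walk.cons hwu Walk.nil)) ?_ ?_ ?_ ?_
    · simp [Walk.isPath_def, huw, hxu, hwx.symm]
    all_goals simp
  by_cases h2 : ∃ y, G.Adj x y ∧ G.Adj y u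
  · obtain ⟨y, hxy, hyu⟩ := h2
    by_cases hyw : y = w
    · subst hyw
      refine key x u (Walk.cons hxy (Walk.cons hyu Walk.nil)) ?_ ?_ ?_ ?_
      · simp [Walk.isPath_def, hxu, hwx.symm, huw.symm]
      all_goals simp
    · refine key x w (Walk.cons hxy (Walk.cons hyu (Walk.cons hwu Walk.nil))) ?_ ?_ ?_ ?_
      · simp [Walk.isPath_def, hxu, hwx.symm, huw, G.ne_of_adj hxy, G.ne_of_adj hyu, hyw]
      all_goals simp
  push Not at h2
  by_cases h3 : ∃ p q, G.Adj p u ∧ G.Adj x q ∧ G.Adj q p
  · obtain ⟨p, q, hpu, hxq, hqp⟩ := h3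
    have hxp : x ≠ p := by rintro rfl; exact h1 hpu
    have hqu : q ≠ u := by rintro rfl; exact h1 hxq
    have hqw : q ≠ w := by rintro rfl; exact h2 _ hxq hwu.symm
    by_cases hpw : p = w
    · subst hpw
      refine key x u (Walk.cons hxq (Walk.cons hqp (Walk.cons hpu Walk.nil))) ?_ ?_ ?_ ?_
      · simp [Walk.isPath_def, hxu, hxp, huw.symm, G.ne_of_adj hxq, hqu, hqw]
      all_goals simp
    · refine key x w (Walk.cons hxq (Walk.cons hqp (Walk.cons hpu (Walk.cons hwu Walk.nil))))
        ?_ ?_ ?_ ?_
      · simp [Walk.isPath_def, hxu, hxp, huw, G.ne_of_adj hxq, hqu, hqw, hpw, G.ne_of_adj hqp,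
          G.ne_of_adj hpu, hwx.symm]
      all_goals simp
  push Not at h3
  -- `v` is adjacent to a neighbour of `x`
  have h4 : ∃ q, G.Adj x q ∧ G.Adj q v := by
    by_contra hcon
    push Not at hcon
    -- the closed neighbourhood of `x` is closed under adjacency
    have hcl : ∀ a b, G.Adj a b → (a = x ∨ G.Adj x a) → (b = x ∨ G.Adj x b) := by
      intro a b hab ha
      by_cases hbv : b = v
      · subst hbv
        rcases ha with rfl | ha
        · exact absurd hab hxv
        · exact absurd hab (hcon a ha)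
      rcases hdom b hbv with (rfl | hb) | (rfl | hb)
      · rcases ha with rfl | ha
        · exact absurd hab h1
        · exact absurd hab (h2 a ha)
      · rcases ha with rfl | ha
        · exact absurd hb (h2 b hab)
        · exact absurd hab (h3 b a hb ha)
      · exact Or.inl rfl
      · exact Or.inr hb.symm
    obtain ⟨W⟩ := hc.preconnected x u
    have hgen : ∀ s t : V, G.Walk s t → (s = x ∨ G.Adj x s) → (t = x ∨ G.Adj x t) := by
      intro s t W
      induction W with
      | nil => exact id
      | cons hadj _ ih => exact fun hs => ih (hcl _ _ hadj hs)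
    rcases hgen x u W (Or.inl rfl) with h | h
    · exact hxu h.symm
    · exact h1 h
  obtain ⟨q, hxq, hqv⟩ := h4
  have hqu : q ≠ u := by rintro rfl; exact h1 hxq
  have hqw : q ≠ w := by rintro rfl; exact h2 _ hxq hwu.symm
  refine key x u (Walk.cons hxq (Walk.cons hqv (Walk.cons hwv (Walk.cons hwu.symm Walk.nil))))
    ?_ ?_ ?_ ?_
  · simp [Walk.isPath_def, hxu, hxv', huw.symm, huv'.symm, G.ne_of_adj hxq, hqu, hqw, hvw,
      G.ne_of_adj hqv, hwx.symm]
  all_goals simp

/-- In a connected graph that is not complete there are vertices at distance two. -/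
lemma exists_dist_two (hc : G.Connected) {a b : V} (hab : a ≠ b) (hnab : ¬ G.Adj a b) :
    ∃ u v w, u ≠ v ∧ ¬ G.Adj u v ∧ G.Adj u w ∧ G.Adj v w := by
  by_contra hcon
  push Not at hcon
  obtain ⟨W⟩ := hc.preconnected a b
  have hgen : ∀ s t : V, G.Walk s t → ∀ c, (c = s ∨ G.Adj c s) → (c = t ∨ G.Adj c t) := by
    intro s t W
    induction W with
    | nil => intro c h; exact h
    | @cons s m t hadj _ ih =>
      intro c hcs
      apply ih
      rcases hcs with rfl | hcs
      · exact Or.inr hadj
      · by_cases hcm : c = m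
        · exact Or.inl hcm
        · right
          by_contra hncm
          exact hcon c m s hcm hncm hcs hadj.symm
  rcases hgen a b W a (Or.inl rfl) with h | h
  · exact hab h
  · exact hnab h

/-- **Main theorem.** Every connected 3-(γ,2)-critical graph contains a dominating path. -/
theorem result (V : Type) [Fintype V] (G : SimpleGraph V) (hc : G.Connected)
    (hcrit : LocallyCritical 3 2 G) :
    ∃ (a b : V) (p : G.Walk a b), p.IsPath ∧
      ∀ y, y ∈ p.support ∨ ∃ z ∈ p.support, G.Adj y z := by
  classical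
  obtain ⟨hg, hloc⟩ := hcrit
  -- `G` is not complete
  obtain ⟨a⟩ := hc.nonempty
  have hnc : ∃ b, a ≠ b ∧ ¬ G.Adj a b := by
    by_contra hcon
    push Not at hcon
    have : Dominating G {a} := by
      intro v hv
      refine ⟨a, Finset.mem_singleton_self a, ?_⟩
      exact (hcon v (fun h => hv (by rw [h]; exact Finset.mem_singleton_self _))).symm
    have := gamma_le this
    rw [hg, Finset.card_singleton] at this
    omega
  obtain ⟨b, hab, hnab⟩ := hnc
  obtain ⟨u, v, w, huv, hnuv, huw, hvw⟩ := exists_dist_two hc hab hnab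
  have hd : G.dist u v ≤ 2 := by
    have := SimpleGraph.dist_le (Walk.cons huw (Walk.cons hvw.symm Walk.nil))
    simpa using this
  have hlt := hloc u v huv hnuv (hc.preconnected u v) hd
  obtain ⟨D, hD, hDc⟩ := exists_gamma (G ⊔ SimpleGraph.edge u v)
  have hD2 : D.card ≤ 2 := by omega
  -- `D` does not dominate `G`
  have hnD : ¬ Dominating G D := by
    intro h
    have := gamma_le h
    omega
  unfold Dominating at hnD
  push Not at hnD
  obtain ⟨t, htD, ht⟩ := hnD
  obtain ⟨s, hsD, hst⟩ := hD t htD
  have hst' : (t = u ∧ s = v) ∨ (t = v ∧ s = u) := by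
    rw [SimpleGraph.sup_adj] at hst
    rcases hst with h | h
    · exact absurd h (ht s hsD)
    · rw [SimpleGraph.edge_adj] at h
      rcases h.1 with h | h
      · exact Or.inl h
      · exact Or.inr h
  -- wlog `t = v`, `s = u`
  have hmain : ∀ u v : V, u ≠ v → ¬ G.Adj u v → G.Adj u w → G.Adj v w →
      (∀ y, y ∉ D → y ≠ v → y ≠ u → ∃ z ∈ D, G.Adj y z) → v ∉ D → u ∈ D →
      (∀ z ∈ D, ¬ G.Adj v z) → ∃ (a b : V) (p : G.Walk a b), p.IsPath ∧
      ∀ y, y ∈ p.support ∨ ∃ z ∈ p.support, G.Adj y z := by
    intro u v huv hnuv huw hvw hdomD hvD huD hvn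
    -- D = {u, x}
    have hD1 : ∃ x, x ≠ u ∧ x ∈ D := by
      by_contra hcon
      push Not at hcon
      have hDu : ∀ z ∈ D, z = u := by
        intro z hz; by_contra h; exact hcon z h hz
      have : Dominating G {u, w} := by
        intro y hy
        simp only [Finset.mem_insert, Finset.mem_singleton, not_or] at hy
        by_cases hyv : y = v
        · subst hyv; exact ⟨w, by simp, hvw⟩
        · have hyD : y ∉ D := fun h => hy.1 (hDu y h)
          obtain ⟨z, hz, hadj⟩ := hdomD y hyD hyv hy.1
          rw [hDu z hz] at hadj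
          exact ⟨u, by simp, hadj⟩
      have h3 := gamma_le this
      have h4 : ({u, w} : Finset V).card ≤ 2 := Finset.card_le_two
      omega
    obtain ⟨x, hxu, hxD⟩ := hD1
    have hDux : ∀ z ∈ D, z = u ∨ z = x := by
      have h1 : ({u, x} : Finset V) ⊆ D := by
        intro z hz
        simp only [Finset.mem_insert, Finset.mem_singleton] at hz
        rcases hz with rfl | rfl
        · exact huD
        · exact hxD
      have h2 : ({u, x} : Finset V).card = 2 := Finset.card_pair hxu.symm
      have h3 := Finset.eq_of_subset_of_card_le h1 (by omega)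
      intro z hz
      rw [← h3] at hz
      simpa using hz
    have hxv' : x ≠ v := by rintro rfl; exact hvD hxD
    apply core hc huw hvw (fun h => hvn x hxD h.symm) hxv' hnuv huv hxu
    intro y hyv
    by_cases hyD : y ∈ D
    · rcases hDux y hyD with h | h
      · exact Or.inl (Or.inl h)
      · exact Or.inr (Or.inl h)
    · have hyu : y ≠ u := fun h => hyD (h ▸ huD)
      obtain ⟨z, hz, hadj⟩ := hdomD y hyD hyv hyu
      rcases hDux z hz with rfl | rfl
      · exact Or.inl (Or.inr hadj)
      · exact Or.inr (Or.inr hadj)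
  have hdomD : ∀ y, y ∉ D → y ≠ v → y ≠ u → ∃ z ∈ D, G.Adj y z := by
    intro y hyD hyv hyu
    obtain ⟨z, hz, hadj⟩ := hD y hyD
    rw [SimpleGraph.sup_adj] at hadj
    rcases hadj with h | h
    · exact ⟨z, hz, h⟩
    · rw [SimpleGraph.edge_adj] at h
      rcases h.1 with h | h
      · exact absurd h.1 hyu
      · exact absurd h.1 hyv
  rcases hst' with ⟨rfl, rfl⟩ | ⟨rfl, rfl⟩
  · exact hmain s t huv.symm (fun h => hnuv h.symm) hvw huw
      (fun y h1 h2 h3 => hdomD y h1 h3 h2) htD hsD ht
  · exact hmain s t huv hnuv huw hvw hdomD htD hsD ht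

end Pool.Agent.Results.MP_8fbeef_co.DominatingPath
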